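import Mathlib
import Pool.Agent.H96.TL3

open Filter Topology Metric
open Pool.Agent.H96.TL

namespace Pool.Agent.Results.MP_2a41cd_an.Yes

/-- The norm is rotund: the midpoint of two distinct unit vectors has norm `< 1`. -/
def Rotund (X : Type) [NormedAddCommGroup X] [NormedSpace ℝ X] : Prop :=
  ∀ x y : X, ‖x‖ = 1 → ‖y‖ = 1 → x ≠ y → ‖(1 / 2 : ℝ) • (x + y)‖ < 1

/-- The norm is (Gateaux) smooth: each unit vector has exactly one norm-one supporting
functional. -/
def Smooth (X : Type) [NormedAddCommGroup X] [NormedSpace ℝ X] : Prop :=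
  ∀ x : X, ‖x‖ = 1 → ∃! f : X →L[ℝ] ℝ, ‖f‖ = 1 ∧ f x = 1

abbrev J : Type := Cardinal.continuum.{0}.ord.ToType

lemma J_inf : Infinite J := by
  rw [Cardinal.infinite_iff, Cardinal.mk_ord_toType]
  exact Cardinal.aleph0_le_continuum

lemma enum : ∃ x : J → J →₀ ℝ, (∀ α γ, α ≤ γ → x α γ = 0) ∧ Function.Surjective x := by
  classical
  have := J_inf
  have := Cardinal.noMaxOrder Cardinal.aleph0_le_continuum.{0}
  obtain ⟨e⟩ : Nonempty (J ≃ (J →₀ ℝ) × J) := by
    rw [← Cardinal.eq]
    simp [Cardinal.mk_finsupp_of_infinite, Cardinal.mk_real]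
  refine ⟨fun α => (e α).1.filter (· < α), fun α γ h => ?_, fun v => ?_⟩
  · simp [Finsupp.filter_apply, not_lt.2 h]
  · obtain ⟨b, hb⟩ := v.support.exists_le
    by_contra hc
    push Not at hc
    obtain ⟨b', hb'⟩ := exists_gt b
    have h1 : ∀ j, e.symm (v, j) < b' := by
      intro j
      by_contra h2
      push Not at h2
      refine hc (e.symm (v, j)) ?_
      simp only [Equiv.apply_symm_apply]
      rw [Finsupp.filter_eq_self_iff]
      intro i hi
      exact ((hb i (Finsupp.mem_support_iff.2 hi)).trans_lt hb').trans_le h2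
    have h2 := Cardinal.mk_le_of_injective (f := fun j : J => (⟨_, h1 j⟩ : Set.Iio b'))
      fun i j h => by simpa using h
    have h3 := Cardinal.mk_Iio_lt b' (by simp)
    exact absurd h2 (not_le.2 h3)

noncomputable def xx : J → J →₀ ℝ := enum.choose

def X : Type := J →₀ ℝ

noncomputable instance : AddCommGroup X := inferInstanceAs (AddCommGroup (J →₀ ℝ))

noncomputable instance : Module ℝ X := inferInstanceAs (Module ℝ (J →₀ ℝ))

noncomputable def N : X → ℝ := NN xx

lemma N_nice : Nice N := NN_nice xx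

noncomputable instance : NormedAddCommGroup X := AddGroupNorm.toNormedAddCommGroup
  { toFun := N
    map_zero' := N_nice.zero
    add_le' := N_nice.add
    neg' := N_nice.neg
    eq_zero_of_map_eq_zero' := fun _ h => NN_zero xx h }

lemma norm_eq (v : X) : ‖v‖ = N v := rfl

noncomputable instance : NormedSpace ℝ X where
  norm_smul_le a v := (N_nice.smul a v).le

theorem result : ∃ (X : Type) (_ : NormedAddCommGroup X) (_ : NormedSpace ℝ X),
    ¬ FiniteDimensional ℝ X ∧ Rotund X ∧ Smooth X ∧
    ∃ C : Set X, (⋃ c ∈ C, closedBall c 1) = Set.univ ∧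
      C.Pairwise fun a b => Disjoint (interior (closedBall a 1)) (interior (closedBall b 1)) := by
  refine ⟨X, inferInstance, inferInstance, ?_, ?_, ?_, ?_⟩
  · have := J_inf
    intro h
    have h2 : Module.Finite ℝ (J →₀ ℝ) := h
    exact not_finite_iff_infinite.2 this (Module.Finite.finite_basis (Finsupp.basisSingleOne (R := ℝ)))
  · intro x y hx hy hxy
    have h1 := norm_add_le x y
    rw [norm_smul, Real.norm_eq_abs, abs_of_pos (by norm_num)]
    have h2 : ‖x + y‖ ≠ ‖x‖ + ‖y‖ := by
      intro h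
      have := N_nice.rot x y h
      rw [← norm_eq, ← norm_eq, ← norm_eq, hx, hy, one_smul, one_smul, norm_eq_zero,
        sub_eq_zero] at this
      exact hxy this
    have := lt_of_le_of_ne h1 h2
    linarith
  · intro x hx
    obtain ⟨D, hD⟩ := N_nice.lin (z := x) (by rw [← norm_eq, hx]; norm_num)
    have key : ∀ f : X →L[ℝ] ℝ, ‖f‖ = 1 ∧ f x = 1 → ∀ v, f v = D v := by
      rintro f ⟨h1, h2⟩ v
      have h3 : HasDerivAt (fun s : ℝ => f (x + s • v)) (f v) 0 := by
        simp only [map_add, map_smul, smul_eq_mul]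
        simpa using ((hasDerivAt_id (0 : ℝ)).mul_const (f v)).const_add (f x)
      have h4 : IsLocalMin (fun s : ℝ => N (x + s • v) - f (x + s • v)) 0 := by
        refine Eventually.of_forall fun s => ?_
        have := (le_abs_self _).trans (f.le_opNorm (x + s • v))
        simp only [zero_smul, add_zero, ← norm_eq, hx, h2]
        rw [h1] at this
        linarith
      have := h4.hasDerivAt_eq_zero ((hD v).sub h3)
      linarith
    obtain ⟨g, hg⟩ := exists_dual_vector ℝ x (by rw [hx]; norm_num)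
    have hg' : ‖g‖ = 1 ∧ g x = 1 := ⟨hg.1, by rw [hg.2, hx]; rfl⟩
    exact ⟨g, hg', fun f hf => ContinuousLinearMap.ext fun v => by rw [key f hf, key g hg']⟩
  · obtain ⟨C, h1, h2⟩ := centres xx enum.choose_spec.1
    refine ⟨cc xx '' C, Set.eq_univ_of_forall fun v => ?_, ?_⟩
    · obtain ⟨α, rfl⟩ := enum.choose_spec.2 v
      obtain ⟨γ, h3, h4⟩ := h1 α
      simp only [Set.mem_iUnion, mem_closedBall, dist_eq_norm]
      exact ⟨_, ⟨γ, h3, rfl⟩, h4⟩
    · rintro _ ⟨α, hα, rfl⟩ _ ⟨γ, hγ, rfl⟩ hne
      rw [interior_closedBall _ one_ne_zero, interior_closedBall _ one_ne_zero]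
      refine ball_disjoint_ball ?_
      rcases lt_trichotomy α γ with h | h | h
      · rw [dist_comm, dist_eq_norm]
        exact le_trans (by norm_num) (h2 γ hγ α hα h)
      · exact absurd (by rw [h]) hne
      · rw [dist_eq_norm]
        exact le_trans (by norm_num) (h2 α hα γ hγ h)

end Pool.Agent.Results.MP_2a41cd_an.Yes
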